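import Mathlib
import Pool.Agent.Helper832.CD.Stmt
import Pool.Agent.Helper832.CD.Base
import Pool.Agent.Helper832.CD.R1
import Pool.Agent.Helper832.CD.R2
import Pool.Agent.Helper832.CD.Core2
import Pool.Agent.Helper832.CD.DataEx

set_option autoImplicit false

namespace Pool.Agent.Results.MP_a77edb_an.CStarClass

open Pool.Agent.Helper832.CD

universe u

/-- Class (iii): every infinite-dimensional C*-algebra `A` (unital or not, separable or not)
satisfies `dg A > 1` and `db A > 1`. -/
theorem result (A : Type u) [NonUnitalCStarAlgebra A] (hA : ¬ FiniteDimensional ℂ A) :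
    1 < dg A ∧ 1 < db A := by
  obtain ⟨d⟩ := exists_data A hA
  refine ⟨?_, ?_⟩
  · by_contra h
    exact core d (lifts_of_dg_le A (not_lt.mp h))
  · by_contra h
    exact core d (lifts_of_db_le A (not_lt.mp h))

end Pool.Agent.Results.MP_a77edb_an.CStarClass
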