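import Mathlib
import Pool.Agent.Helper5.Dg.Pub
import Pool.Agent.Helper5.Tri.Defs
import Pool.Agent.Helper5.Tri.Fin3

set_option autoImplicit false

namespace Pool.Agent.Results.MP_a77edb_an.Involution

open Pool.Agent.Helper5.Td

/-- There is an infinite-dimensional Banach algebra with an isometric involution whose left global
dimension and whose bidimension are both equal to one. -/
theorem result : ∃ (A : Type) (_ : NormedRing A) (_ : NormedAlgebra ℂ A) (_ : CompleteSpace A)
    (st : A → A), IsInvol A st ∧ ¬ FiniteDimensional ℂ A ∧ dg A = 1 ∧ db A = 1 :=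
  ⟨Pool.Agent.Helper5.Tri.TA, inferInstance, inferInstance, inferInstance,
    Pool.Agent.Helper5.Tri.st, Pool.Agent.Helper5.Tri.TA_invol, Pool.Agent.Helper5.Tri.TA_inf,
    Pool.Agent.Helper5.Tri.TA_dg, Pool.Agent.Helper5.Tri.TA_db⟩

end Pool.Agent.Results.MP_a77edb_an.Involution
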