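import Mathlib
import Pool.Agent.Helper832.GDStmt
import Pool.Agent.Helper832.RDD

set_option autoImplicit false

namespace Pool.Agent.Results.MP_a77edb_an.RadicalCase

open Pool.Agent.Helper832.GS

/-- Class (iv): every non-zero commutative radical Banach algebra `A` (radical: every element is
quasi-invertible) satisfies `dg A > 1` and `db A > 1`. -/
theorem result (A : Type) [NonUnitalNormedCommRing A] [NormedSpace ℂ A]
    [IsScalarTower ℂ A A] [SMulCommClass ℂ A A] [CompleteSpace A] [Nontrivial A]
    (hA : ∀ a : A, ∃ b : A, a + b + a * b = 0) : 1 < dg A ∧ 1 < db A :=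
  Pool.Agent.Helper832.RD.dims_radical A hA

end Pool.Agent.Results.MP_a77edb_an.RadicalCase
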